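import Pool.Agent.KS6_70.Theon.Core

/-! Six relations on the unit interval coded in one, by the order of four extra arguments. -/

namespace Pool.Agent.KS6_70.Theon

open Set Filter Topology MeasureTheory Function

/-- a measurable map onto `ℕ` with non-null fibres -/
noncomputable def κ (w : unitInterval) : ℕ := ⌊(w : ℝ)⁻¹⌋₊ - 1

theorem meas_κ : Measurable κ :=
  (Nat.measurable_floor.comp measurable_subtype_coe.inv).sub_const 1

theorem κ_fib (n : ℕ) : volume {w | κ w = n} ≠ 0 := by
  have h1 : (0 : ℝ) < n + 1 := by positivity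
  let a : unitInterval := ⟨((n : ℝ) + 2)⁻¹, by positivity, inv_le_one_of_one_le₀ (by linarith)⟩
  let b : unitInterval := ⟨((n : ℝ) + 1)⁻¹, by positivity,
    inv_le_one_of_one_le₀ (by linarith [Nat.cast_nonneg (α := ℝ) n])⟩
  have hab : (a : ℝ) < b := inv_strictAnti₀ h1 (by linarith)
  have h0 : volume (Ioo a b) ≠ 0 := by
    rw [unitInterval.volume_Ioo]
    exact (ENNReal.ofReal_pos.2 (sub_pos.2 hab)).ne'
  refine fun h => h0 (measure_mono_null (fun w hw => ?_) h)
  have h2 : (0 : ℝ) < w := lt_trans (show (0 : ℝ) < ((n : ℝ) + 2)⁻¹ by positivity) hw.1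
  have h3 : ⌊(w : ℝ)⁻¹⌋₊ = n + 1 := (Nat.floor_eq_iff (by positivity)).2 ⟨by
    push_cast
    exact ((lt_inv_comm₀ h2 h1).1 hw.2).le, by
    push_cast
    have := (inv_lt_comm₀ (show (0 : ℝ) < n + 2 by positivity) h2).1 hw.1
    linarith⟩
  simp [κ, h3]

theorem meas_rel {Z : Type} [MeasurableSpace Z] {u : Z → Fin 5 → G} (hu : Measurable u) (n : ℕ) :
    Measurable fun z => RelAt (u z) n := by
  have h : ∀ i m, Measurable fun z => u z i m := fun i m =>
    (measurable_pi_apply m).comp ((measurable_pi_apply i).comp hu)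
  exact ((h 2 n).eq ((h 0 n).add (h 1 n))).and
    (((h 3 n).eq ((h 0 n).add_const 1)).and ((h 4 n).eq (h 0 (n + 1))))

theorem meas_ev {Z : Type} [MeasurableSpace Z] {x : Z → G} {l : Z → ℕ} (hx : Measurable x)
    (hl : Measurable l) : Measurable fun z => x z (l z) :=
  (measurable_from_prod_countable_left (f := fun p : G × ℕ => p.1 p.2)
    fun n => measurable_pi_apply n).comp (hx.prodMk hl)

theorem mp_pair {ι : Type} [Fintype ι] {a b : ι} (h : a ≠ b) :
    MeasurePreserving (fun x : ι → unitInterval => (x a, x b)) volume (volume.prod volume) := by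
  refine ⟨by fun_prop, ?_⟩
  rw [volume_pi, ← Measure.infinitePi_eq_pi]
  exact Measure.infinitePi_map_eval_prod h

theorem ae_off {D : unitInterval → G} (hD : MeasurePreserving D volume μ) {ι : Type} [Fintype ι]
    {i j : ι} (hij : i ≠ j) :
    ∀ᵐ x : ι → unitInterval, D (x j) ≠ D (x i) + one := by
  have h6 : ∀ᵐ a ∂μ.prod μ, a.2 ≠ a.1 + one :=
    (Measure.ae_prod_iff_ae_ae (p := fun a : G × G => a.2 ≠ a.1 + one)
      (measurableSet_eq_fun measurable_snd (measurable_fst.add_const _)).compl).2
      (Eventually.of_forall fun x => ae_ne μ (x + one))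
  have h7 : ∀ᵐ b ∂(volume : Measure unitInterval).prod (volume : Measure unitInterval),
      D b.2 ≠ D b.1 + one := (hD.prod hD).quasiMeasurePreserving.ae h6
  have h9 := (mp_pair hij).quasiMeasurePreserving
  exact h9.ae (p := fun b => D b.2 ≠ D b.1 + one) h7

/-- the six relations, read off from distinct coordinates, are measurable modulo null sets -/
theorem null_pr {D : unitInterval → G} (hD : MeasurePreserving D volume μ) {ι : Type} [Fintype ι]
    (p : Sy) (f : Fin (ar p) → ι) (hf : Injective f) :
    NullMeasurableSet {x : ι → unitInterval | pr D κ p fun i => x (f i)} volume := by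
  have h1 : ∀ i : ι, Measurable fun x : ι → unitInterval => D (x i) := fun i =>
    hD.measurable.comp (measurable_pi_apply _)
  have h2 : ∀ i : ι, Measurable fun x : ι → unitInterval => κ (x i) := fun i =>
    meas_κ.comp (measurable_pi_apply _)
  have h3 : ∀ (f : Fin 5 → ι) m,
      Measurable fun x : ι → unitInterval => RelAt (fun i => D (x (f i))) m := fun f m =>
    meas_rel (measurable_pi_lambda _ fun i => h1 _) m
  cases p with
  | bit => exact ((meas_ev (h1 _) (h2 _)).eq measurable_const).setOf.nullMeasurableSet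
  | succ => exact ((h2 _).eq ((h2 _).add_const 1)).setOf.nullMeasurableSet
  | fst => exact ((h2 _).eq measurable_const).setOf.nullMeasurableSet
  | ok =>
    exact (Measurable.forall fun j => (measurableSet_setOfPred.1
      (measurableSet_lt measurable_const (h2 _))).imp (h3 _ j)).setOf.nullMeasurableSet
  | lt =>
    exact (Measurable.exists fun n => (h3 _ n).not.and
      (Measurable.forall fun j => measurable_const.imp (h3 _ j))).setOf.nullMeasurableSet
  | dg =>
    change Fin 7 → ι at f
    have h4 : MeasurableSet {x : ι → unitInterval | ∃ n,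
        (¬ RelAt (fun i : Fin 5 => D (x (f i.succ.succ))) n ∧
        ∀ j < n, RelAt (fun i : Fin 5 => D (x (f i.succ.succ))) j) ∧
          D (x (f 0)) (n - κ (x (f 1))) = 1} :=
      (Measurable.exists fun n => ((h3 _ n).not.and
        (Measurable.forall fun j => measurable_const.imp (h3 _ j))).and
        ((meas_ev (h1 _) ((h2 _).const_sub n)).eq measurable_const)).setOf
    refine h4.nullMeasurableSet.congr ?_
    filter_upwards [ae_off hD (i := f 2) (j := f 5) (fun h => absurd (hf h) (by decide))] with x hx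
    have h7 : ∃ n, ¬ RelAt (fun i : Fin 5 => D (x (f i.succ.succ))) n := by
      by_contra hn
      push Not at hn
      refine hx (funext fun n => ?_)
      have := (hn n).2.1
      exact this
    classical
    change (∃ n, _) = Dg0 _ _ _
    unfold Dg0 Ul
    rw [dif_pos h7]
    refine propext ⟨?_, fun h => ⟨_, ⟨Nat.find_spec h7, fun j hj => not_not.1 (Nat.find_min h7 hj)⟩, h⟩⟩
    rintro ⟨n, ⟨h8, h9⟩, h⟩
    rw [(Nat.find_eq_iff h7).2 ⟨h8, fun j hj => not_not.2 (h9 j hj)⟩]
    exact h

/-- the relation attached to an order type of four elements -/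
def lab (σ : Equiv.Perm (Fin 4)) : Sy ⊕ Bool :=
  if σ 3 = 3 then .inl (if σ 0 = 0 then (if σ 1 = 1 then .bit else .succ) else
    if σ 0 = 1 then (if σ 1 = 0 then .fst else .ok) else if σ 1 = 0 then .lt else .dg)
  else .inr (σ 3 = 0 ∧ σ 0 < σ 1)

set_option maxRecDepth 100000 in
theorem lab_surj : ∀ p : Sy, ∃ σ, lab σ = .inl p := by
  intro p
  cases p <;> decide

set_option maxRecDepth 100000 in
theorem lab_sep : ∀ ρ : Equiv.Perm (Fin 4), ρ ≠ 1 →
    ∃ τ, lab τ = .inr true ∧ lab (τ * ρ) = .inr false := by decide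

set_option maxRecDepth 100000 in
theorem mono_one : ∀ σ : Equiv.Perm (Fin 4), (∀ i j, i < j → σ i < σ j) → σ = 1 := by decide

theorem ar_le (p : Sy) : ar p ≤ 10 := by cases p <;> decide

/-- the relation with a given label, on the first entries of a tuple -/
def prL {m : ℕ} (hm : 10 ≤ m) (D : unitInterval → G) (a : Fin m → unitInterval) :
    Sy ⊕ Bool → Prop
  | .inl p => pr D κ p fun i => a (Fin.castLE ((ar_le p).trans hm) i)
  | .inr b => b = true

/-- the coded relation: the order type of the last four entries chooses a relation between the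
first entries -/
def RN {m : ℕ} (hm : 10 ≤ m) (D : unitInterval → G) (t : Fin (m + 4) → unitInterval) : Prop :=
  ∃ σ : Equiv.Perm (Fin 4), StrictMono (fun i => t (Fin.natAdd m (σ i))) ∧
    prL hm D (fun i => t (Fin.castAdd 4 i)) (lab σ)

theorem null_prL {m : ℕ} (hm : 10 ≤ m) {D : unitInterval → G}
    (hD : MeasurePreserving D volume μ) {ι : Type} [Fintype ι] (f : Fin m → ι) (hf : Injective f)
    (v : Sy ⊕ Bool) :
    NullMeasurableSet {x : ι → unitInterval | prL hm D (fun i => x (f i)) v} volume := by
  cases v with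
  | inl p =>
    have h5 := null_pr hD p (fun i => f (Fin.castLE ((ar_le p).trans hm) i))
      (hf.comp (Fin.castLE_injective _))
    simp only [prL]
    exact h5
  | inr b =>
    simp only [prL]
    exact (MeasurableSet.const _).nullMeasurableSet

theorem null_RN {m : ℕ} (hm : 10 ≤ m) {D : unitInterval → G} (hD : MeasurePreserving D volume μ)
    {ι : Type} [Fintype ι] (f : Fin (m + 4) → ι) (hf : Injective f) :
    NullMeasurableSet {x : ι → unitInterval | RN hm D fun i => x (f i)} volume := by
  have h : {x : ι → unitInterval | RN hm D fun i => x (f i)} = ⋃ σ : Equiv.Perm (Fin 4),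
      {x : ι → unitInterval | StrictMono (fun i => x (f (Fin.natAdd m (σ i))))} ∩
      {x : ι → unitInterval | prL hm D (fun i => x (f (Fin.castAdd 4 i))) (lab σ)} := by
    ext x
    simp only [mem_iUnion]
    rfl
  rw [h]
  refine NullMeasurableSet.iUnion fun σ => NullMeasurableSet.inter ?_ ?_
  · have h2 : {x : ι → unitInterval | StrictMono (fun i => x (f (Fin.natAdd m (σ i))))} =
        ⋂ i : Fin 4, ⋂ j : Fin 4, ⋂ _ : i < j,
          {x : ι → unitInterval | x (f (Fin.natAdd m (σ i))) < x (f (Fin.natAdd m (σ j)))} := by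
      ext x
      simp only [mem_iInter]
      exact ⟨fun h i j hij => h hij, fun h i j hij => h i j hij⟩
    have h3 : ∀ a b : ι, MeasurableSet {x : ι → unitInterval | x a < x b} := fun a b =>
      measurableSet_lt (measurable_pi_apply a) (measurable_pi_apply b)
    have h4 : MeasurableSet (⋂ i : Fin 4, ⋂ j : Fin 4, ⋂ _ : i < j,
        {x : ι → unitInterval | x (f (Fin.natAdd m (σ i))) < x (f (Fin.natAdd m (σ j)))}) :=
      MeasurableSet.iInter fun i => MeasurableSet.iInter fun j => MeasurableSet.iInter fun _ =>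
        h3 _ _
    rw [h2]
    exact h4.nullMeasurableSet
  · exact null_prL hm hD (fun i => f (Fin.castAdd 4 i)) (hf.comp (Fin.castAdd_injective m 4)) _

theorem RN_append {m : ℕ} (hm : 10 ≤ m) {D : unitInterval → G} (a : Fin m → unitInterval)
    {e : Fin 4 → unitInterval} (he : StrictMono e) (τ : Equiv.Perm (Fin 4)) :
    RN hm D (Fin.append a (e ∘ τ.symm)) ↔ prL hm D a (lab τ) := by
  unfold RN
  simp only [Fin.append_left, Fin.append_right, comp_apply]
  constructor
  · rintro ⟨σ, h1, h2⟩
    have h3 : τ.symm * σ = 1 := mono_one _ fun i j hij => he.lt_iff_lt.1 (h1 hij)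
    have h4 : σ = τ := by
      have h5 : τ * (τ.symm * σ) = τ * 1 := by rw [h3]
      rw [← mul_assoc, mul_one] at h5
      rw [← h5]
      ext i
      simp
    rw [h4] at h2
    exact h2
  · intro h
    refine ⟨τ, fun i j hij => ?_, h⟩
    simpa using he hij

/-- without sorting -/
theorem RN_append' {m : ℕ} (hm : 10 ≤ m) {D : unitInterval → G} (a : Fin m → unitInterval)
    {e : Fin 4 → unitInterval} {ρ : Equiv.Perm (Fin 4)} (he : StrictMono (e ∘ ρ))
    (τ : Equiv.Perm (Fin 4)) :
    RN hm D (Fin.append a (e ∘ τ.symm)) ↔ prL hm D a (lab (τ * ρ)) := by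
  rw [← RN_append hm a he]
  refine iff_of_eq (congrArg _ (congrArg _ (funext fun i => ?_)))
  have : ρ ((τ * ρ).symm i) = τ.symm i := by
    rw [Equiv.eq_symm_apply, ← Equiv.Perm.mul_apply, Equiv.apply_symm_apply]
  simp only [comp_apply, this]

end Pool.Agent.KS6_70.Theon
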