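import Pool.Agent.KS6_70.Theon.Iso
import Pool.Agent.KS6_70.Theon.Lin

/-! No measurable local repair relative to a fixed countable frame. -/

namespace Pool.Agent.KS6_70.Theon

open Set Filter Topology MeasureTheory Function
open scoped ENNReal

def RelAt (u : Fin 5 → G) (n : ℕ) : Prop :=
  u 2 n = u 0 n + u 1 n ∧ u 3 n = u 0 n + 1 ∧ u 4 n = u 0 (n + 1)

def Ok0 (k : ℕ) (u : Fin 5 → G) : Prop := ∀ j < k, RelAt u j

def Lt0 (u u' : Fin 5 → G) : Prop := ∃ n, ¬ RelAt u n ∧ ∀ j ≤ n, RelAt u' j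

open Classical in
noncomputable def Ul (u : Fin 5 → G) : Ultrafilter ℕ :=
  if h : ∃ n, ¬ RelAt u n then pure (Nat.find h) else hyperfilter ℕ

def Dg0 (x : G) (k : ℕ) (u : Fin 5 → G) : Prop := ∀ᶠ n in Ul u, x (n - k) = 1

open Classical in
noncomputable def ind (p : Prop) : ZMod 2 := if p then 1 else 0

theorem Lt0.asymm {u v : Fin 5 → G} (h : Lt0 u v) : ¬ Lt0 v u := by
  rintro ⟨m, hm, hm'⟩
  obtain ⟨n, hn, hn'⟩ := h
  rcases le_total n m with h | h
  · exact hn (hm' n h)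
  · exact hm (hn' m h)

theorem Lt0.trans {u v w : Fin 5 → G} (h : Lt0 u v) (h' : Lt0 v w) : Lt0 u w := by
  obtain ⟨n, hn, hn'⟩ := h
  obtain ⟨m, hm, hm'⟩ := h'
  refine ⟨n, hn, fun j hj => hm' j (hj.trans ?_)⟩
  by_contra hlt
  exact hm (hn' m (not_le.1 hlt).le)

theorem key {u r : Fin 5 → G} {k : ℕ} (h1 : Ok0 (k + 1) r) (h2 : ¬ Lt0 u r) :
    ∀ᶠ n in Ul r, RelAt u (n - (k + 1)) ∧ n - (k + 1) + 1 = n - k := by
  classical
  unfold Ul
  split_ifs with h
  · have h3 : k + 1 ≤ Nat.find h := by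
      by_contra hlt
      exact Nat.find_spec h (h1 _ (not_le.1 hlt))
    change RelAt u (Nat.find h - (k + 1)) ∧ Nat.find h - (k + 1) + 1 = Nat.find h - k
    refine ⟨by_contra fun hn => h2 ⟨_, hn, fun j hj => ?_⟩, by omega⟩
    exact not_not.1 (Nat.find_min h (by omega))
  · push Not at h
    have h3 : ∀ᶠ n in hyperfilter ℕ, k + 1 ≤ n :=
      Nat.hyperfilter_le_atTop (eventually_ge_atTop (k + 1))
    filter_upwards [h3] with n hn
    exact ⟨by_contra fun hn => h2 ⟨_, hn, fun j _ => h j⟩, by omega⟩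

theorem ev_ind (x : G) (k : ℕ) (r : Fin 5 → G) : ∀ᶠ n in Ul r, x (n - k) = ind (Dg0 x k r) := by
  unfold ind
  split_ifs with h
  · exact h
  · filter_upwards [Ultrafilter.eventually_not.2 h] with n hn
    revert hn
    generalize x (n - k) = s
    revert s; decide

theorem key2 {u r : Fin 5 → G} {k : ℕ} (h1 : Ok0 (k + 1) r) (h2 : ¬ Lt0 u r) :
    ind (Dg0 (u 2) (k + 1) r) = ind (Dg0 (u 0) (k + 1) r) + ind (Dg0 (u 1) (k + 1) r) ∧
    ind (Dg0 (u 3) (k + 1) r) = ind (Dg0 (u 0) (k + 1) r) + 1 ∧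
    ind (Dg0 (u 4) (k + 1) r) = ind (Dg0 (u 0) k r) := by
  obtain ⟨n, ⟨⟨a, b, c⟩, d⟩, h, e⟩ := ((key h1 h2).and
    ((eventually_all.2 fun i => ev_ind (u i) (k + 1) r).and (ev_ind (u 0) k r))).exists
  rw [← h 0, ← h 1, ← h 2, ← h 3, ← h 4, ← e, ← d]
  exact ⟨a, b, c⟩

inductive Sy | bit | succ | fst | ok | lt | dg
  deriving DecidableEq

instance finSy : Finite Sy :=
  Finite.of_surjective (![.bit, .succ, .fst, .ok, .lt, .dg] : Fin 6 → Sy) fun p => by
    cases p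
    exacts [⟨0, rfl⟩, ⟨1, rfl⟩, ⟨2, rfl⟩, ⟨3, rfl⟩, ⟨4, rfl⟩, ⟨5, rfl⟩]

abbrev ar : Sy → ℕ
  | .bit => 2 | .succ => 2 | .fst => 2 | .ok => 6 | .lt => 5 + 5 | .dg => 7

def pr {X : Type} (D : X → G) (κ : X → ℕ) : (p : Sy) → (Fin (ar p) → X) → Prop
  | .bit => fun s : Fin 2 → X => D (s 0) (κ (s 1)) = 1
  | .succ => fun s : Fin 2 → X => κ (s 1) = κ (s 0) + 1
  | .fst => fun s : Fin 2 → X => κ (s 0) = 0
  | .ok => fun s : Fin 6 → X => Ok0 (κ (s 0)) fun i => D (s i.succ)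
  | .lt => fun s : Fin (5 + 5) → X =>
      Lt0 (fun i => D (s (Fin.castAdd 5 i))) fun i => D (s (Fin.natAdd 5 i))
  | .dg => fun s : Fin 7 → X => Dg0 (D (s 0)) (κ (s 1)) fun i => D (s i.succ.succ)

def pts (a : G × G) : Fin 5 → G := ![a.1, a.2, a.1 + a.2, a.1 + one, L a.1]

theorem pts_rel (a : G × G) (n : ℕ) : RelAt (pts a) n := ⟨rfl, rfl, rfl⟩

theorem mp_pts (i : Fin 5) : MeasurePreserving (fun a => pts a i) (μ.prod μ) μ := by
  fin_cases i
  · exact measurePreserving_fst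
  · exact measurePreserving_snd
  · exact mp_add
  · exact (measurePreserving_add_right μ one).comp measurePreserving_fst
  · exact mp_L.comp measurePreserving_fst

theorem ae_L (b : G) : ∀ᵐ x ∂μ, L x ≠ x + b := by
  have : {x | L x = x + b}.Finite := by
    refine Set.Finite.of_finite_image (f := fun x => x 0) (toFinite _) fun x hx y hy h => ?_
    funext n
    induction n with
    | zero => exact h
    | succ n ih =>
      have h1 : x (n + 1) = x n + b n := congrFun hx n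
      have h2 : y (n + 1) = y n + b n := congrFun hy n
      rw [h1, h2, ih]
  exact measure_eq_zero_iff_ae_notMem.1 (this.measure_zero μ)

theorem ae_ne {X : Type} [MeasurableSpace X] (ν : Measure X) [NullSingletonClass ν] (b : X) :
    ∀ᵐ x ∂ν, x ≠ b :=
  measure_eq_zero_iff_ae_notMem.1 (measure_singleton b)

theorem one_ne : one ≠ 0 := fun h => absurd (congrFun h 0) (by decide)

theorem ae_inj : ∀ᵐ a ∂μ.prod μ, Injective (pts a) := by
  have hm : MeasurableSet {a | Injective (pts a)} := by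
    have : {a | Injective (pts a)} = ⋂ i, ⋂ j, {a | pts a i = pts a j}ᶜ ∪ {_a | i = j} := by
      ext a
      simp only [Injective, mem_ofPred_eq, mem_iInter, mem_union, mem_compl_iff, imp_iff_not_or]
    rw [this]
    exact MeasurableSet.iInter fun i => MeasurableSet.iInter fun j =>
      (measurableSet_eq_fun (mp_pts i).measurable (mp_pts j).measurable).compl.union
        (MeasurableSet.const _)
  rw [Measure.ae_prod_iff_ae_ae hm]
  filter_upwards [ae_ne μ 0, ae_L 0, ae_L one] with x h1 h2 h3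
  filter_upwards [ae_ne μ x, ae_ne μ 0, ae_ne μ (x + one), ae_ne μ (L x), ae_ne μ one,
    ae_ne μ (L x - x)] with y h4 h5 h6 h7 h8 h9
  rw [add_zero] at h2
  have h10 : x + y ≠ L x := fun h => h9 (by rw [← h]; abel)
  have h11 := one_ne
  intro i j h
  fin_cases i <;> fin_cases j <;> simp_all [pts, eq_comm]

theorem zm {a b : ZMod 2} (h : a = 1 ↔ b = 1) : a = b := by
  revert h a b; decide

theorem core {X : Type} [MeasurableSpace X] (ν : Measure X) [NullSingletonClass ν]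
    {π : G → X} {D : X → G} (hi : AeIso μ ν π D) {Z : Set X} (hZ : Z.Countable)
    (Qb : X → ℕ → Prop) (Qo : ℕ → (Fin 5 → X) → Prop) (Ql : (Fin (5 + 5) → X) → Prop)
    (Qd : X → ℕ → (Fin 5 → X) → Prop)
    (hlt : ∀ m : Measure (Fin (5 + 5) → X), IsFiniteMeasure m → NullMeasurableSet {s | Ql s} m)
    (hdg : ∀ k r (m : Measure X), IsFiniteMeasure m → NullMeasurableSet {x | Qd x k r} m)
    (tr : ∀ k (F : Finset X), F.card ≤ 15 → (∀ x ∈ F, x ∉ Z) → ∃ (φ : X → G) (a : ℕ),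
      (k = 0 → a = 0) ∧
      (∀ x ∈ F, (Qb x k ↔ φ x a = 1) ∧ (Qb x (k + 1) ↔ φ x (a + 1) = 1)) ∧
      (∀ r : Fin 5 → X, Injective r → (∀ i, r i ∈ F) →
        (Qo k r ↔ Ok0 a (φ ∘ r)) ∧ (Qo (k + 1) r ↔ Ok0 (a + 1) (φ ∘ r))) ∧
      (∀ u v : Fin 5 → X, Injective u → Injective v → (∀ i j, u i ≠ v j) → (∀ i, u i ∈ F) →
        (∀ i, v i ∈ F) → (Ql (Fin.append u v) ↔ Lt0 (φ ∘ u) (φ ∘ v))) ∧
      (∀ x ∈ F, ∀ r : Fin 5 → X, Injective r → (∀ i, x ≠ r i) → (∀ i, r i ∈ F) →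
        (Qd x k r ↔ Dg0 (φ x) a (φ ∘ r)) ∧ (Qd x (k + 1) r ↔ Dg0 (φ x) (a + 1) (φ ∘ r))))
    (hae : ∀ᵐ x ∂ν, ∀ k, Qb x k ↔ D x k = 1) : False := by
  classical
  let ω : G × G → Fin 5 → X := fun a i => π (pts a i)
  have mω : ∀ i, MeasurePreserving (fun a => ω a i) (μ.prod μ) ν := fun i => hi.m1.comp (mp_pts i)
  let Γ := {a | (∀ i, D (ω a i) = pts a i) ∧ Injective (pts a) ∧
    ∀ i, (∀ k, Qb (ω a i) k ↔ D (ω a i) k = 1) ∧ ω a i ∉ Z}
  have hZ' : ∀ᵐ x ∂ν, x ∉ Z := measure_eq_zero_iff_ae_notMem.1 (hZ.measure_zero ν)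
  have hΓ : ∀ᵐ a ∂μ.prod μ, a ∈ Γ :=
    (eventually_all.2 fun i => (mp_pts i).quasiMeasurePreserving.ae hi.e1).and
      (ae_inj.and (eventually_all.2 fun i => (mω i).quasiMeasurePreserving.ae (hae.and hZ')))
  have hinj : ∀ a ∈ Γ, Injective (ω a) := fun a ha i j h =>
    ha.2.1 (by rw [← ha.1, ← ha.1, h])
  have hav : ∀ b : X, ∀ᵐ a ∂μ.prod μ, ∀ i, ω a i ≠ b := fun b =>
    eventually_all.2 fun i => (mω i).quasiMeasurePreserving.ae (ae_ne ν b)
  let dj : G × G → G × G → Prop := fun a r => ∀ j i, ω a i ≠ ω r j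
  have hdj : ∀ r, ∀ᵐ a ∂μ.prod μ, dj a r := fun r => eventually_all.2 fun j => hav _
  let lt : G × G → G × G → Prop := fun a r => Ql (Fin.append (ω a) (ω r))
  have hap : Measurable fun p : (G × G) × (G × G) => Fin.append (ω p.1) (ω p.2) := by
    refine measurable_pi_lambda _ (Fin.addCases (fun i => ?_) fun i => ?_)
    · simp only [Fin.append_left]; exact (mω i).measurable.comp measurable_fst
    · simp only [Fin.append_right]; exact (mω i).measurable.comp measurable_snd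
  have pb : ∀ {Y W : Type} [MeasurableSpace Y] [MeasurableSpace W] (m : Measure Y)
      [IsFiniteMeasure m] (f : Y → W), Measurable f → ∀ s : Set W,
      (∀ m' : Measure W, IsFiniteMeasure m' → NullMeasurableSet s m') →
      NullMeasurableSet (f ⁻¹' s) m := by
    intro Y W _ _ m _ f hf s hs
    exact (hs (m.map f) inferInstance).preimage ⟨hf, Measure.AbsolutelyContinuous.rfl⟩
  have hltm : NullMeasurableSet {p : (G × G) × (G × G) | lt p.1 p.2} ((μ.prod μ).prod (μ.prod μ)) :=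
    pb _ _ hap _ hlt
  have hltm' : ∀ r, NullMeasurableSet {a | lt a r} (μ.prod μ) := fun r =>
    pb _ _ (hap.comp measurable_prodMk_right) _ hlt
  have sub : ∀ {n : ℕ} (a : Fin n → G × G), (∀ i, a i ∈ Γ) →
      ∃ F : Finset X, F.card ≤ 5 * n ∧ (∀ x ∈ F, x ∉ Z) ∧ ∀ i j, ω (a i) j ∈ F := by
    intro n a ha
    refine ⟨Finset.univ.image fun p : Fin n × Fin 5 => ω (a p.1) p.2, ?_, ?_, fun i j => ?_⟩
    · refine Finset.card_image_le.trans ?_
      simp [mul_comm]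
    · intro x hx
      obtain ⟨p, -, rfl⟩ := Finset.mem_image.1 hx
      exact ((ha p.1).2.2 p.2).2
    · exact Finset.mem_image.2 ⟨(i, j), Finset.mem_univ _, rfl⟩
  obtain ⟨r, hr, hsm⟩ := small_init (μ.prod μ) (lt := lt) hltm hltm' hΓ hdj (by
    intro a ha b hb hab h1 h2
    obtain ⟨F, hF, hFZ, hm⟩ := sub ![a, b] (Fin.forall_fin_two.2 ⟨ha, hb⟩)
    obtain ⟨φ, k, -, -, -, hφ, -⟩ := tr 0 F (hF.trans (by norm_num)) hFZ
    exact ((hφ _ _ (hinj a ha) (hinj b hb) (fun i j => hab j i) (hm 0) (hm 1)).1 h1).asymm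
      ((hφ _ _ (hinj b hb) (hinj a ha) (fun i j => (hab i j).symm) (hm 1) (hm 0)).1 h2)) (by
    intro a ha b hb r hr hab hbr har h1 h2
    obtain ⟨F, hF, hFZ, hm⟩ := sub ![a, b, r] (by
      intro i; fin_cases i; exacts [ha, hb, hr])
    obtain ⟨φ, k, -, -, -, hφ, -⟩ := tr 0 F (hF.trans (by norm_num)) hFZ
    exact (hφ _ _ (hinj a ha) (hinj r hr) (fun i j => har j i) (hm 0) (hm 2)).2
      (((hφ _ _ (hinj a ha) (hinj b hb) (fun i j => hab j i) (hm 0) (hm 1)).1 h1).trans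
        ((hφ _ _ (hinj b hb) (hinj r hr) (fun i j => hbr j i) (hm 1) (hm 2)).1 h2)))
    (ε := ENNReal.ofReal (1 / 100)) (by simp)
  have hok : ∀ k, Qo k (ω r) := by
    intro k
    obtain ⟨F, hF, hFZ, hm⟩ := sub ![r] (by intro i; fin_cases i; exact hr)
    have hm0 : ∀ i, ω r i ∈ F := fun i => hm 0 i
    induction k with
    | zero =>
      obtain ⟨φ, a, ha, -, hφ, -⟩ := tr 0 F (hF.trans (by norm_num)) hFZ
      refine (hφ _ (hinj r hr) hm0).1.2 fun j hj => ?_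
      exact absurd (ha rfl ▸ hj : j < 0) (Nat.not_lt_zero j)
    | succ k ih =>
      obtain ⟨φ, a, ha, hb, hφ, -⟩ := tr k F (hF.trans (by norm_num)) hFZ
      have h2 : Ok0 a (φ ∘ ω r) := (hφ _ (hinj r hr) hm0).1.1 ih
      have h5 : ∀ i, φ (ω r i) a = pts r i k := fun i => by
        have e := (hb _ (hm0 i)).1.symm.trans ((hr.2.2 i).1 k)
        rw [hr.1] at e
        exact zm e
      have h6 : ∀ i, φ (ω r i) (a + 1) = pts r i (k + 1) := fun i => by
        have e := (hb _ (hm0 i)).2.symm.trans ((hr.2.2 i).1 (k + 1))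
        rw [hr.1] at e
        exact zm e
      refine (hφ _ (hinj r hr) hm0).2.2 fun j hj => ?_
      rcases Nat.lt_succ_iff_lt_or_eq.1 hj with h | rfl
      · exact h2 j h
      · simp only [RelAt, comp, h5, h6]
        exact pts_rel r k
  refine blr₀ (fun k x => ind (Qd (π x) k (ω r))) (fun k => ?_) fun k => ?_
  · have h : NullMeasurableSet {x | Qd (π x) k (ω r)} μ := 
      pb μ π hi.m1.measurable {x | Qd x k (ω r)} (hdg k (ω r))
    have h' : (fun x => ind (Qd (π x) k (ω r))) =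
        indicator {x | Qd (π x) k (ω r)} fun _ => (1 : ZMod 2) := by
      funext x
      by_cases hx : Qd (π x) k (ω r) <;> simp [ind, indicator, hx]
    rw [h']
    exact aemeasurable_const.indicator₀ h
  refine ⟨{a | lt a r} ∪ {a | ¬ (a ∈ Γ ∧ dj a r)}, ?_, fun x y hn => ?_⟩
  · have h0 : μ.prod μ {a | ¬ (a ∈ Γ ∧ dj a r)} = 0 := hΓ.and (hdj r)
    refine (measure_union_le _ _).trans ?_
    rw [h0, add_zero]
    exact hsm.le
  rw [mem_union, not_or] at hn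
  obtain ⟨ha, h1⟩ := not_not.1 hn.2
  obtain ⟨F, hF, hFZ, hm⟩ := sub ![r, (x, y)] (Fin.forall_fin_two.2 ⟨hr, ha⟩)
  have hm0 : ∀ i, ω r i ∈ F := fun i => hm 0 i
  have hm1 : ∀ i, ω (x, y) i ∈ F := fun i => hm 1 i
  obtain ⟨φ, a, -, hb, ho, hl, hd⟩ := tr k F (hF.trans (by norm_num)) hFZ
  have h5 : Ok0 (a + 1) (φ ∘ ω r) := (ho _ (hinj r hr) hm0).2.1 (hok (k + 1))
  have h6 := key2 h5 ((hl _ _ (hinj _ ha) (hinj r hr) (fun i j => h1 j i) hm1 hm0).not.1 hn.1)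
  have h7 : ∀ i, (Qd (ω (x, y) i) k (ω r) ↔ Dg0 (φ (ω (x, y) i)) a (φ ∘ ω r)) ∧
      (Qd (ω (x, y) i) (k + 1) (ω r) ↔ Dg0 (φ (ω (x, y) i)) (a + 1) (φ ∘ ω r)) := fun i =>
    hd _ (hm1 i) _ (hinj r hr) (fun j => h1 j i) hm0
  simp only [comp, ← (h7 _).1, ← (h7 _).2] at h6
  exact h6

end Pool.Agent.KS6_70.Theon
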