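import Mathlib

/-! Isomorphisms modulo null sets between atomless standard Borel probability spaces. -/

namespace Pool.Agent.KS6_70.Theon

open Set Filter Topology MeasureTheory ProbabilityTheory
open scoped ENNReal

theorem pit (ν : Measure ℝ) [IsProbabilityMeasure ν] [NullSingletonClass ν] :
    MeasurePreserving (cdf ν) ν (volume.restrict (Icc 0 1)) := by
  have h1 : Continuous (cdf ν) := continuous_iff_continuousAt.2 fun x => by
    have h := (cdf ν).measure_singleton x
    rw [measure_cdf, measure_singleton, eq_comm, ENNReal.ofReal_eq_zero, sub_nonpos] at h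
    rw [(monotone_cdf ν).continuousAt_iff_leftLim_eq_rightLim, (cdf ν).rightLim_eq]
    exact ((monotone_cdf ν).leftLim_le le_rfl).antisymm h
  have := Measure.isProbabilityMeasure_map (μ := ν) h1.aemeasurable
  refine ⟨h1.measurable, Measure.ext_of_Iic _ _ fun s => ?_⟩
  rw [Measure.map_apply h1.measurable measurableSet_Iic, Measure.restrict_apply measurableSet_Iic]
  by_cases h2 : 1 ≤ s
  · rw [eq_univ_of_forall (s := cdf ν ⁻¹' Iic s) fun x => (cdf_le_one ν x).trans h2,
      inter_eq_right.2 fun x hx => hx.2.trans h2]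
    simp
  rw [show Iic s ∩ Icc 0 1 = Icc 0 s from Set.ext fun x => ⟨fun h => ⟨h.2.1, h.1⟩,
    fun h => ⟨h.2, h.1, h.2.trans (not_le.1 h2).le⟩⟩, Real.volume_Icc, sub_zero]
  rcases (cdf ν ⁻¹' Iic s).eq_empty_or_nonempty with h3 | h3
  · rw [h3, measure_empty, eq_comm, ENNReal.ofReal_eq_zero]
    exact ge_of_tendsto' (tendsto_cdf_atBot ν) fun x => (not_le.1 fun h => h3.subset h).le
  obtain ⟨b, hb⟩ := eventually_atTop.1 ((tendsto_cdf_atTop ν).eventually
    (lt_mem_nhds (not_le.1 h2)))
  have h4 : BddAbove (cdf ν ⁻¹' Iic s) := ⟨b, fun x hx => not_lt.1 fun h => (hb x h.le).not_ge hx⟩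
  have h5 := (isClosed_Iic.preimage h1).csSup_mem h3 h4
  set c := sSup (cdf ν ⁻¹' Iic s) with hc
  have h6 : cdf ν ⁻¹' Iic s = Iic c := Set.ext fun x =>
    ⟨fun h => le_csSup h4 h, fun h => (monotone_cdf ν h).trans h5⟩
  rw [h6, ← ofReal_cdf]
  refine congrArg _ (le_antisymm h5 (ge_of_tendsto (x := 𝓝[>] c)
    (h1.continuousAt.tendsto.mono_left nhdsWithin_le_nhds) ?_))
  filter_upwards [self_mem_nhdsWithin] with x hx
  exact (not_le.1 fun h => (mem_Iic.1 (h6.subset h)).not_gt hx).le

variable {X Y : Type} [MeasurableSpace X] [MeasurableSpace Y]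

/-- Inverse isomorphisms modulo null sets. -/
structure AeIso (μ : Measure X) (ν : Measure Y) (φ : X → Y) (ψ : Y → X) : Prop where
  m1 : MeasurePreserving φ μ ν
  m2 : MeasurePreserving ψ ν μ
  e1 : ∀ᵐ x ∂μ, ψ (φ x) = x
  e2 : ∀ᵐ y ∂ν, φ (ψ y) = y

theorem iso_unit [StandardBorelSpace X] (μ : Measure X) [IsProbabilityMeasure μ]
    [NullSingletonClass μ] : ∃ φ ψ, AeIso μ (volume.restrict (Icc (0 : ℝ) 1)) φ ψ := by
  have hb := measurableEmbedding_embeddingReal X
  have := Measure.isProbabilityMeasure_map (μ := μ) hb.measurable.aemeasurable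
  have : NullSingletonClass (μ.map (embeddingReal X)) := ⟨fun r => by
    rw [hb.map_apply]
    exact (subsingleton_singleton.preimage hb.injective).measure_zero μ⟩
  have h1 := (pit (μ.map (embeddingReal X))).comp ⟨hb.measurable, rfl⟩
  set F := cdf (μ.map (embeddingReal X)) with hF
  let N := (F ∘ embeddingReal X) ⁻¹' range fun q : ℚ => F q
  have h2 : MeasurableSet N := h1.measurable (countable_range _).measurableSet
  have h3 : μ N = 0 := (h1.measure_preimage (countable_range _).measurableSet.nullMeasurableSet).trans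
    ((countable_range _).measure_zero _)
  have h4 : ∀ x y, x ∉ N → F (embeddingReal X x) = F y → ¬embeddingReal X x < y :=
    fun x y hx h h' => by
      obtain ⟨q, a, b⟩ := exists_rat_btwn h'
      exact hx ⟨q, ((monotone_cdf _ b.le).trans h.ge).antisymm (monotone_cdf _ a.le)⟩
  have := h2.compl.standardBorel
  have h5 : MeasurableEmbedding fun x : ↥Nᶜ => F (embeddingReal X x) :=
    (h1.measurable.comp measurable_subtype_coe).measurableEmbedding fun x y h => Subtype.ext
      (hb.injective (le_antisymm (not_lt.1 (h4 _ _ y.2 h.symm)) (not_lt.1 (h4 _ _ x.2 h))))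
  have := μ.nonempty_of_neZero
  let ψ : ℝ → X := Function.extend (fun x : ↥Nᶜ => F (embeddingReal X x)) (↑)
    fun _ => Classical.arbitrary X
  have h6 : Measurable ψ := h5.measurable_extend measurable_subtype_coe measurable_const
  have h7 : ∀ᵐ x ∂μ, ψ (F (embeddingReal X x)) = x := measure_mono_null
    (fun x hx => by_contra fun h => hx (h5.injective.extend_apply _ _ ⟨x, h⟩)) h3
  refine ⟨_, ψ, h1, ⟨h6, ?_⟩, h7, ?_⟩
  · rw [← h1.map_eq, Measure.map_map h6 h1.measurable]
    exact (Measure.map_congr h7).trans Measure.map_id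
  · rw [← h1.map_eq]
    exact (ae_map_iff h1.measurable.aemeasurable
      (measurableSet_eq_fun (h1.measurable.comp h6) measurable_id)).2
      (h7.mono fun x hx => by simp only [Function.comp, hx, id])

variable {μ : Measure X} {ν : Measure Y} {φ : X → Y} {ψ : Y → X}

theorem iso_any [StandardBorelSpace X] [StandardBorelSpace Y] (μ : Measure X) (ν : Measure Y)
    [IsProbabilityMeasure μ] [NullSingletonClass μ] [IsProbabilityMeasure ν]
    [NullSingletonClass ν] : ∃ φ ψ, AeIso μ ν φ ψ := by
  obtain ⟨a, b, h⟩ := iso_unit μ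
  obtain ⟨c, d, h'⟩ := iso_unit ν
  refine ⟨d ∘ a, b ∘ c, h'.m2.comp h.m1, h.m2.comp h'.m1, ?_, ?_⟩
  · filter_upwards [h.e1, h.m1.quasiMeasurePreserving.ae h'.e2] with x h1 h2
    simp only [Function.comp, h1, h2]
  · filter_upwards [h'.e1, h'.m1.quasiMeasurePreserving.ae h.e2] with x h1 h2
    simp only [Function.comp, h1, h2]

end Pool.Agent.KS6_70.Theon
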