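import Mathlib

/-! Countable families of independent uniform coordinates. -/

namespace Pool.Agent.KS6_70.Theon

open Set Filter Topology MeasureTheory Function
open scoped ENNReal

variable {Ω : Type} [MeasurableSpace Ω] (ν : Measure Ω) [IsProbabilityMeasure ν] {ι : Type}

/-- independent coordinates -/
noncomputable abbrev iid (ι : Type) : Measure (ι → Ω) := Measure.infinitePi fun _ : ι => ν

theorem mp_reindex {κ : Type} [Fintype κ] (f : κ → ι) (hf : Injective f) :
    MeasurePreserving (fun (ε : ι → Ω) k => ε (f k)) (iid ν ι) (Measure.pi fun _ : κ => ν) := by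
  classical
  have hm : Measurable fun (ε : ι → Ω) k => ε (f k) :=
    measurable_pi_lambda _ fun k => measurable_pi_apply _
  refine ⟨hm, (Measure.pi_eq fun s hs => ?_).symm⟩
  have h1 : (fun (ε : ι → Ω) k => ε (f k)) ⁻¹' (univ.pi s) =
      Set.pi (Finset.univ.image f : Finset ι) (extend f s fun _ => univ) := by
    ext ε
    simp [Set.mem_pi, hf.extend_apply]
  rw [Measure.map_apply hm (MeasurableSet.univ_pi hs), h1, Measure.infinitePi_pi,
    Finset.prod_image fun _ _ _ _ h => hf h]
  · simp [hf.extend_apply]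
  · intro i hi
    obtain ⟨k, -, rfl⟩ := Finset.mem_image.1 hi
    rw [hf.extend_apply]
    exact hs k

theorem mp_update [DecidableEq ι] (i0 : ι) :
    MeasurePreserving (fun p : (ι → Ω) × Ω => update p.1 i0 p.2) ((iid ν ι).prod ν) (iid ν ι) := by
  have hm : Measurable fun p : (ι → Ω) × Ω => update p.1 i0 p.2 := by
    refine measurable_pi_lambda _ fun i => ?_
    by_cases h : i = i0
    · subst h; simpa using measurable_snd
    · have h' : Measurable fun p : (ι → Ω) × Ω => p.1 i := (measurable_pi_apply i).comp measurable_fst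
      simpa [h] using h'
  refine ⟨hm, Measure.eq_infinitePi _ fun s t ht => ?_⟩
  rw [Measure.map_apply hm (MeasurableSet.pi s.countable_toSet fun i _ => ht i)]
  by_cases h : i0 ∈ s
  · have h1 : (fun p : (ι → Ω) × Ω => update p.1 i0 p.2) ⁻¹' (Set.pi s t) =
        (Set.pi (s.erase i0 : Finset ι) t) ×ˢ t i0 := by
      ext ⟨ε, x⟩
      simp only [mem_preimage, Set.mem_pi, mem_prod]
      constructor
      · intro h2
        refine ⟨fun i hi => ?_, by simpa using h2 i0 (by simpa using h)⟩
        have h3 := Finset.mem_erase.1 (Finset.mem_coe.1 hi)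
        simpa [h3.1] using h2 i (by simpa using h3.2)
      · rintro ⟨h2, h3⟩ i hi
        by_cases h4 : i = i0
        · subst h4; simpa using h3
        · simpa [h4] using h2 i (by simpa [h4] using hi)
    rw [h1, Measure.prod_prod, Measure.infinitePi_pi _ fun i _ => ht i, Finset.prod_erase_mul _ _ h]
  · have h1 : (fun p : (ι → Ω) × Ω => update p.1 i0 p.2) ⁻¹' (Set.pi s t) =
        (Set.pi s t) ×ˢ univ := by
      ext ⟨ε, x⟩
      simp only [mem_preimage, Set.mem_pi, mem_prod, mem_univ, and_true]
      refine forall₂_congr fun i hi => ?_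
      have h4 : i ≠ i0 := fun e => h (e ▸ hi)
      simp [h4]
    rw [h1, Measure.prod_prod, Measure.infinitePi_pi _ fun i _ => ht i, measure_univ, mul_one]

theorem ae_distinct [NullSingletonClass ν] [MeasurableSingletonClass Ω] [MeasurableEq Ω]
    [Countable ι] :
    ∀ᵐ ε ∂iid ν ι, Injective ε := by
  have h : ∀ᵐ ε ∂iid ν ι, ∀ i j, i ≠ j → ε i ≠ ε j := by
    refine ae_all_iff.2 fun i => ae_all_iff.2 fun j => ?_
    by_cases hij : i = j
    · exact Eventually.of_forall fun ε h => absurd hij h
    · have h1 : ∀ᵐ p ∂ν.prod ν, p.1 ≠ p.2 :=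
        (Measure.ae_prod_iff_ae_ae (p := fun a : Ω × Ω => a.1 ≠ a.2)
          (measurableSet_eq_fun measurable_fst measurable_snd).compl).2
          (Eventually.of_forall fun x => (measure_eq_zero_iff_ae_notMem.1
            (measure_singleton x)).mono fun y hy e => hy e.symm)
      have h2 : MeasurePreserving (fun ε : ι → Ω => (ε i, ε j)) (iid ν ι) (ν.prod ν) :=
        ⟨by fun_prop, Measure.infinitePi_map_eval_prod hij⟩
      exact (h2.quasiMeasurePreserving.ae h1).mono fun ε h _ => h
  exact h.mono fun ε h i j e => by_contra fun hne => h i j hne e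

theorem ae_hit {s : Set Ω} (hs : MeasurableSet s) (h0 : ν s ≠ 0) (f : ℕ → ι) (hf : Injective f) :
    ∀ᵐ ε ∂iid ν ι, ∃ i, ε (f i) ∈ s := by
  classical
  have hq : ν sᶜ < 1 := by
    rw [prob_compl_eq_one_sub hs]
    exact ENNReal.sub_lt_self ENNReal.one_ne_top one_ne_zero h0
  have h1 : ∀ n : ℕ, iid ν ι {ε | ¬ ∃ i, ε (f i) ∈ s} ≤ ν sᶜ ^ n := by
    intro n
    have h2 : {ε : ι → Ω | ¬ ∃ i, ε (f i) ∈ s} ⊆
        Set.pi ((Finset.range n).image f : Finset ι) fun _ => sᶜ := by
      intro ε hε i hi hs
      obtain ⟨j, -, rfl⟩ := Finset.mem_image.1 (Finset.mem_coe.1 hi)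
      exact hε ⟨j, hs⟩
    refine (measure_mono h2).trans ?_
    rw [Measure.infinitePi_pi _ fun _ _ => hs.compl, Finset.prod_const,
      Finset.card_image_of_injective _ hf, Finset.card_range]
  exact le_zero_iff.1 (ge_of_tendsto' (ENNReal.tendsto_pow_atTop_nhds_zero_of_lt_one hq) h1)

end Pool.Agent.KS6_70.Theon
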